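import Pool.Agent.Lib.MP_200139_nt.Defs
import Pool.Agent.Lib.MP_200139_nt.Main

open Pool.Agent.Lib.VPal Filter

/-- The bases `b` with infinitely many `v`-palindromes `n` such that `n` and its reversal are both
squarefree form a set of positive lower logarithmic density. -/
theorem Pool.Agent.Results.MP_200139_nt.PositiveDensityBases.result :
    ∃ c : ℝ, 0 < c ∧ ∀ᶠ N : ℕ in atTop, c * Real.log N ≤ ∑ b ∈ Finset.Icc 2 N,
      Set.indicator {b : ℕ | {n : ℕ | IsVPal b n ∧ Squarefree n ∧ Squarefree (rev b n)}.Infinite}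
        (fun b : ℕ => (1 / b : ℝ)) b :=
  pos_log_density
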