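import Pool.Agent.Lib.MP_200139_nt.Defs
import Pool.Agent.Lib.MP_200139_nt.Seeds

open Pool.Agent.Lib.VPal

/-- There is an absolute exponent `K` such that every base `b ≥ 2` has infinitely many
`v`-palindromes `n` with `n` and its reversal both free of `K`-th powers of primes. -/
theorem Pool.Agent.Results.MP_200139_nt.PowerFreeEveryBase.result :
    ∃ K : ℕ, ∀ b : ℕ, 2 ≤ b →
      {n : ℕ | IsVPal b n ∧ (∀ p : ℕ, p.Prime → ¬ p ^ K ∣ n) ∧
        (∀ p : ℕ, p.Prime → ¬ p ^ K ∣ rev b n)}.Infinite :=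
  exists_unif_powBase
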